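import Pool.Agent.R979.OC.Final
import Pool.Agent.R979.OC.KNZ
import Pool.Agent.R979.OC.KAsy
import Pool.Agent.R979.OC.FE
import Pool.Agent.R979.OC.ZA
import Pool.Agent.R979.OC.ZB
import Pool.Agent.R979.OC.GB
import Pool.Agent.R979.OC.Shift
import Pool.Agent.R979.OC.FTE
import Pool.Agent.R979.OC.GI
import Pool.Agent.R979.OC.OM
import Pool.Agent.R979.OC.PSI
import Pool.Agent.R979.OC.PL
import Pool.Agent.R979.OC.Volt
import Pool.Agent.R979.OC.Rec
import Pool.Agent.R979.OC.IN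

/-!
# MP_f2798c_nt, Q1: oscillatory asymptotic of the orthorecursive coefficients of unity

Full positive answer.
-/

namespace Pool.Agent.Results.MP_f2798c_nt.OscillatoryAsymptotic

open Filter Asymptotics

/-- The function `g*(z) = 2 z ∑_{j ≥ 0} (-1)^j / (z - j)`, the conditionally convergent series being
summed in pairs of consecutive terms. -/
noncomputable def gStar (z : ℂ) : ℂ :=
  2 * z * ∑' i : ℕ, (1 / (z - (2 * i : ℕ)) - 1 / (z - (2 * i + 1 : ℕ)))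

/-- The orthorecursive coefficients of unity: `c 0 = 1` and `∑_{k ≤ N} c k / (N + k + 1) = 0`
for `N ≥ 1`. -/
def IsOrthorecursive (c : ℕ → ℝ) : Prop :=
  c 0 = 1 ∧ ∀ N : ℕ, 1 ≤ N → ∑ k ∈ Finset.range (N + 1), c k / (N + k + 1 : ℝ) = 0

/-- `ρ` is the zero of `g*` with smallest positive real part in the upper half plane: it is a zero
with positive real and imaginary parts, and every zero with positive real part (the poles `1, 2, …`
being excluded) different from `ρ` and its conjugate has a larger real part. -/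
def IsFirstZero (ρ : ℂ) : Prop :=
  0 < ρ.re ∧ 0 < ρ.im ∧ gStar ρ = 0 ∧
    ∀ z : ℂ, 0 < z.re → (∀ n : ℕ, z ≠ n) → gStar z = 0 →
      z = ρ ∨ z = (starRingEnd ℂ) ρ ∨ ρ.re < z.re

/-- The first zero `ρ` exists and is unique, its real part lies in `(1, 3/2)`, the orthorecursive
coefficients exist and are unique, and there are `κ ≠ 0` and `σ > Re ρ` with
`c n = 2 Re (κ n^(-1-ρ)) + O(n^(-1-σ))`. -/
theorem result :
    (∃ ρ : ℂ, IsFirstZero ρ ∧ 1 < ρ.re ∧ ρ.re < 3 / 2) ∧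
    (∀ ρ ρ' : ℂ, IsFirstZero ρ → IsFirstZero ρ' → ρ = ρ') ∧
    (∃! c : ℕ → ℝ, IsOrthorecursive c) ∧
    ∀ (ρ : ℂ) (c : ℕ → ℝ), IsFirstZero ρ → IsOrthorecursive c →
      ∃ κ : ℂ, κ ≠ 0 ∧ ∃ σ : ℝ, ρ.re < σ ∧
        (fun n : ℕ => c n - 2 * (κ * (n : ℂ) ^ (-1 - ρ)).re) =O[atTop]
          (fun n : ℕ => (n : ℝ) ^ (-1 - σ)) := by
  have hKD := Pool.Agent.R979.OC.t_K.1
  have hKN := Pool.Agent.R979.OC.t_K.2
  have hA := Pool.Agent.R979.OC.t_KASY
  have hGS := Pool.Agent.R979.OC.t_GS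
  have hFE := Pool.Agent.R979.OC.t_FE
  have hZA := Pool.Agent.R979.OC.t_ZA hGS hFE
  have hZB := Pool.Agent.R979.OC.t_ZB hKD
  have hGB := Pool.Agent.R979.OC.t_GB hA hKN
  have hGI := Pool.Agent.R979.OC.t_GI hKD hKN hFE hGB
  have hOM := Pool.Agent.R979.OC.t_OM hKD hKN hZA hZB hGB Pool.Agent.R979.OC.t_SHIFT
    Pool.Agent.R979.OC.t_FTE hGI
  have hPSI := Pool.Agent.R979.OC.t_PSI hOM hGI hKD hKN
  have hV := Pool.Agent.R979.OC.t_VOLT Pool.Agent.R979.OC.t_PL hKD hKN hA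
  have hR := Pool.Agent.R979.OC.t_REC
  obtain ⟨ρ₀, h1, h2, h3, h4, h5, h6⟩ := Pool.Agent.R979.OC.main hOM hPSI hV hR
    Pool.Agent.R979.OC.t_IN Pool.Agent.R979.OC.t_IE hGS
  have hfirst : IsFirstZero ρ₀ := by
    refine ⟨by linarith, h3, h4, fun z hz hn hg => ?_⟩
    rcases h5 z hz hn hg with h | h | h
    · exact Or.inl h
    · exact Or.inr (Or.inl h)
    · exact Or.inr (Or.inr (by linarith))
  have hnat : ∀ ρ : ℂ, 0 < ρ.im → ∀ n : ℕ, ρ ≠ n := by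
    intro ρ hρ n hn
    rw [hn] at hρ
    simp at hρ
  have haux : ∀ ρ ρ' : ℂ, IsFirstZero ρ → IsFirstZero ρ' → ρ' = ρ ∨ ρ.re < ρ'.re := by
    intro ρ ρ' hρ hρ'
    rcases hρ.2.2.2 ρ' hρ'.1 (hnat ρ' hρ'.2.1) hρ'.2.2.1 with h | h | h
    · exact Or.inl h
    · exfalso
      have h7 := hρ'.2.1
      rw [h, Complex.conj_im] at h7
      have h8 := hρ.2.1
      linarith
    · exact Or.inr h
  have huniq : ∀ ρ ρ' : ℂ, IsFirstZero ρ → IsFirstZero ρ' → ρ = ρ' := by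
    intro ρ ρ' hρ hρ'
    rcases haux ρ ρ' hρ hρ' with h | h
    · exact h.symm
    · rcases haux ρ' ρ hρ' hρ with h' | h'
      · exact h'
      · linarith
  have hct := Pool.Agent.R979.OC.ct_rec hOM hPSI hV hR
  refine ⟨⟨ρ₀, hfirst, h1, h2⟩, huniq, ⟨Pool.Agent.R979.OC.ct, ⟨?_, ?_⟩, ?_⟩, ?_⟩
  · have h := hct 0
    simpa using h
  · intro N hN
    have h := hct N
    rw [if_neg (by omega)] at h
    exact h
  · intro c hc
    funext n
    exact Pool.Agent.R979.OC.c_eq_ct hct c hc.1 hc.2 n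
  · intro ρ c hρ hc
    have hρ₀ : ρ = ρ₀ := huniq ρ ρ₀ hρ hfirst
    rw [hρ₀]
    exact h6 c hc.1 hc.2

end Pool.Agent.Results.MP_f2798c_nt.OscillatoryAsymptotic
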